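import Pool.Agent.Lib.MP_8fca14_co.Pierce
import Pool.Agent.Lib.MP_8fca14_co.Five.FIN5

set_option autoImplicit false

/-!
# The Hadwiger–Debrunner number c(4,3,2) is 4 or 5

Upper bound: every finite family of nonempty convex sets in the plane such that among any four
members some three have a common point is pierced by five points. Lower bound: there are fifteen
nonempty compact convex sets with this property that are not pierced by three points.
-/

namespace Pool.Agent.Results.MP_8fca14_co.FourOrFive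

open Pool.Agent.Lib.MP_8fca14_co

private lemma vs_ne : (List.range 15).all (fun i => !(vs i).isEmpty) = true := by decide +kernel

private lemma C_nonempty (i : Fin 15) : (C i).Nonempty := by
  have h := List.all_eq_true.1 vs_ne i.1 (List.mem_range.2 i.2)
  cases hv : vs i.1 with
  | nil =>
    rw [hv] at h
    simp at h
  | cons v l =>
    refine ⟨pt v, subset_convexHull ℝ _ ⟨v, ?_, rfl⟩⟩
    show v ∈ vs i.1
    rw [hv]
    exact List.mem_cons_self

theorem result :
    (∀ (ι : Type) [Fintype ι] (C : ι → Set (EuclideanSpace ℝ (Fin 2))),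
      (∀ i, Convex ℝ (C i)) → (∀ i, (C i).Nonempty) →
      (∀ s : Finset ι, s.card = 4 → ∃ t ⊆ s, t.card = 3 ∧ (⋂ i ∈ t, C i).Nonempty) →
      ∃ P : Finset (EuclideanSpace ℝ (Fin 2)), P.card ≤ 5 ∧ ∀ i, ∃ p ∈ P, p ∈ C i) ∧
    (∃ C : Fin 15 → Set (EuclideanSpace ℝ (Fin 2)),
      Function.Injective C ∧ (∀ i, (C i).Nonempty) ∧ (∀ i, Convex ℝ (C i)) ∧
      (∀ i, IsCompact (C i)) ∧
      (∀ s : Finset (Fin 15), s.card = 4 → ∃ t ⊆ s, t.card = 3 ∧ (⋂ i ∈ t, C i).Nonempty) ∧
      ∀ P : Finset (EuclideanSpace ℝ (Fin 2)), (∀ i, ∃ p ∈ P, p ∈ C i) → 4 ≤ P.card) := by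
  refine ⟨fun ι _ C hC hne h43 => Five.five C hC hne h43, ?_⟩
  refine ⟨fun i => C i, C_injective, fun i => C_nonempty i, fun i => convex_C i,
    fun i => compact_C i, fun s hs => ?_, fun P hP => not_pierced P hP⟩
  obtain ⟨t, hts, ht, p, hp⟩ := four_three s hs
  exact ⟨t, hts, ht, p, Set.mem_iInter₂.2 hp⟩

end Pool.Agent.Results.MP_8fca14_co.FourOrFive
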